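import Pool.Agent.Y906.MQ.Main

/-!
# Finite misère quotients with prescribed periods: the closure of one game
-/

set_option autoImplicit false

namespace Pool.Agent.Y906.MQ

open Pool.Agent.MisPer
open Pool.Agent.Results.MP_bc0e65_co.EveryPeriod
open Pool.Agent.Results.MP_bc0e65_co.EveryPeriod.Game

variable {r : ℕ}

/-! ### All positions are sums of positions of one game -/

theorem reach_zero (g : Pos r) : Relation.ReflTransGen (fun g K : Pos r => Mv K g) g 0 := by
  induction g using (wf (r := r)).induction with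
  | h g ih =>
    by_cases h : g = 0
    · subst h; exact Relation.ReflTransGen.refl
    · obtain ⟨K, hK⟩ := has_move h
      exact Relation.ReflTransGen.head hK (ih K hK)

theorem reach_add (x : Pos r) {h k : Pos r}
    (hr : Relation.ReflTransGen (fun g K : Pos r => Mv K g) h k) :
    Relation.ReflTransGen (fun g K : Pos r => Mv K g) (x + h) (x + k) := by
  induction hr with
  | refl => exact Relation.ReflTransGen.refl
  | tail _ hm ih => exact ih.tail (Mv_add_iff.2 (Or.inr ⟨_, hm, rfl⟩))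

theorem realise {A : Set Game} (hA : IsClosedSet A) {g k : Pos r}
    (hr : Relation.ReflTransGen (fun g K : Pos r => Mv K g) g k) (h : ∃ G ∈ A, Rep G g) :
    ∃ G ∈ A, Rep G k := by
  induction hr with
  | refl => exact h
  | tail _ hm ih =>
    obtain ⟨G, hG, hR⟩ := ih
    obtain ⟨G', hG', hR'⟩ := ((rep_iff _ _).1 hR).2 _ hm
    exact ⟨G', hA.opts_mem G hG G' hG', hR'⟩

/-- the sum of all indecomposable positions -/
def g0 (r : ℕ) : Pos r := (1, 1, 1, (Finset.univ : Finset (Atom r)).val)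

theorem full {A : Set Game} (hA : IsClosedSet A) (h0 : ∃ G ∈ A, Rep G (g0 r)) :
    ∀ g : Pos r, ∃ G ∈ A, Rep G g := by
  have hpart : ∀ x rest : Pos r, x + rest = g0 r → ∃ G ∈ A, Rep G x := by
    intro x rest he
    have := realise hA (reach_add x (reach_zero rest)) (by rw [he]; exact h0)
    rwa [add_zero] at this
  have hadd : ∀ g h : Pos r, (∃ G ∈ A, Rep G g) → (∃ G ∈ A, Rep G h) →
      ∃ G ∈ A, Rep G (g + h) := by
    rintro g h ⟨G, hG, hg⟩ ⟨H, hH, hh⟩
    exact ⟨Game.add G H, hA.add_mem G hG H hH, rep_add G H g h hg hh⟩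
  have hzero : ∃ G ∈ A, Rep G (0 : Pos r) := ⟨zero, hA.zero_mem, rep_zero⟩
  have hmul : ∀ (k : ℕ) (g : Pos r), (∃ G ∈ A, Rep G g) → ∃ G ∈ A, Rep G (k • g) := by
    intro k g hg
    induction k with
    | zero => rw [zero_nsmul]; exact hzero
    | succ k ih => rw [succ_nsmul]; exact hadd _ _ ih hg
  have hd : ∃ G ∈ A, Rep G ((1, 0, 0, 0) : Pos r) :=
    hpart _ (0, 1, 1, (Finset.univ : Finset (Atom r)).val) (by simp [g0])
  have hu : ∃ G ∈ A, Rep G ((0, 1, 0, 0) : Pos r) :=
    hpart _ (1, 0, 1, (Finset.univ : Finset (Atom r)).val) (by simp [g0])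
  have ha : ∃ G ∈ A, Rep G ((0, 0, 1, 0) : Pos r) :=
    hpart _ (1, 1, 0, (Finset.univ : Finset (Atom r)).val) (by simp [g0])
  have hY : ∀ Y : Multiset (Atom r), ∃ G ∈ A, Rep G ((0, 0, 0, Y) : Pos r) := by
    intro Y
    induction Y using Multiset.induction with
    | empty => exact hzero
    | cons x Y ih =>
      have hx : ∃ G ∈ A, Rep G ((0, 0, 0, {x}) : Pos r) := by
        obtain ⟨t, ht⟩ := Multiset.exists_cons_of_mem
          (show x ∈ (Finset.univ : Finset (Atom r)).val from Finset.mem_univ x)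
        refine hpart _ (1, 1, 1, t) ?_
        rw [g0, ht]
        show ((0 + 1, 0 + 1, 0 + 1, {x} + t) : Pos r) = _
        rw [Multiset.singleton_add]
      have := hadd _ _ hx ih
      have e : ((0, 0, 0, {x}) : Pos r) + (0, 0, 0, Y) = (0, 0, 0, x ::ₘ Y) := by
        show ((0 + 0, 0 + 0, 0 + 0, {x} + Y) : Pos r) = _
        rw [Multiset.singleton_add]
      rwa [e] at this
  rintro ⟨n, i, l, Y⟩
  have := hadd _ _ (hadd _ _ (hadd _ _ (hmul n _ hd) (hmul i _ hu)) (hmul l _ ha)) (hY Y)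
  have e : n • ((1, 0, 0, 0) : Pos r) + i • ((0, 1, 0, 0) : Pos r) + l • ((0, 0, 1, 0) : Pos r) +
      ((0, 0, 0, Y) : Pos r) = (n, i, l, Y) := by
    simp
  rwa [e] at this

/-! ### Finiteness -/

/-- the data which determine the outcomes -/
def dat (g : Pos r) : Fin (4 * r + 8) × Fin 4 × Fin 2 × Fin (2 ^ (4 * r + 9)) ×
    Option {Y : Multiset (Atom r) // Multiset.card Y ≤ 2} :=
  (⟨g.1 % (4 * r + 8), Nat.mod_lt _ (by omega)⟩,
    ⟨if g.2.1 < 2 then g.2.1 else 2 + g.2.1 % 2, by split_ifs <;> omega⟩,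
    ⟨g.2.2.1 % 2, Nat.mod_lt _ (by omega)⟩,
    ⟨gv g.2.2.2, gv_lt _⟩,
    if h : Multiset.card g.2.2.2 ≤ 2 then some ⟨g.2.2.2, h⟩ else none)

theorem sim_of_dat {g g' : Pos r} (h : dat g = dat g') : Sim g g' := by
  obtain ⟨n, i, l, Y⟩ := g
  obtain ⟨n', i', l', Y'⟩ := g'
  simp only [dat, Prod.mk.injEq, Fin.mk.injEq] at h
  obtain ⟨h1, h2, h3, h4, h5⟩ := h
  refine ⟨h1, ?_, h3, h4, ?_⟩
  · show (i = i' ∨ (2 ≤ i ∧ 2 ≤ i' ∧ i % 2 = i' % 2))
    split_ifs at h2 <;> omega
  · show (Y = Y' ∨ (3 ≤ Multiset.card Y ∧ 3 ≤ Multiset.card Y'))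
    split_ifs at h5 with h6 h7 h7
    · left
      simpa using h5
    · right; omega

theorem finite_small : Finite {Y : Multiset (Atom r) // Multiset.card Y ≤ 2} := by
  have h : ({Y : Multiset (Atom r) | Multiset.card Y ≤ 2}).Finite := by
    have h1 : (Set.range (fun x : Atom r => ({x} : Multiset (Atom r)))).Finite := Set.finite_range _
    have h2 : (Set.range (fun x : Atom r × Atom r => ({x.1, x.2} : Multiset (Atom r)))).Finite :=
      Set.finite_range _
    apply ((Set.finite_singleton (0 : Multiset (Atom r))).union (h1.union h2)).subset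
    intro Y hY
    rcases Nat.lt_or_ge (Multiset.card Y) 1 with h3 | h3
    · left
      exact Multiset.card_eq_zero.1 (by omega)
    · rcases Nat.lt_or_ge (Multiset.card Y) 2 with h4 | h4
      · right; left
        obtain ⟨a, rfl⟩ := Multiset.card_eq_one.1 (show Multiset.card Y = 1 by omega)
        exact ⟨a, rfl⟩
      · right; right
        obtain ⟨a, b, rfl⟩ := Multiset.card_eq_two.1 (le_antisymm hY h4)
        exact ⟨(a, b), rfl⟩
  exact h.to_subtype

theorem indist_of_sim {A : Set Game} (hsub : A ⊆ RepSet r) {G H : Game} {g h : Pos r}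
    (hG : Rep G g) (hH : Rep H h) (hs : ∀ x : Pos r, PP (g + x) ↔ PP (h + x)) :
    Indist A G H := by
  intro X hX
  obtain ⟨x, hx⟩ := hsub hX
  rw [rep_nextWins _ _ (rep_add G X g x hG hx), rep_nextWins _ _ (rep_add H X h x hH hx)]
  exact not_congr (hs x)

theorem finite_quotient {A : Set Game} (hA : IsClosedSet A) (hsub : A ⊆ RepSet r) :
    Finite (MisereQuotient A hA) := by
  have := finite_small (r := r)
  choose f hf using fun G : A => hsub G.2
  refine Finite.of_injective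
    (fun q : Quotient (indistSetoid A) => dat (f (Quotient.out q))) ?_
  intro q q' h
  have h1 : Sim (f (Quotient.out q)) (f (Quotient.out q')) := sim_of_dat h
  rw [← Quotient.out_eq q, ← Quotient.out_eq q']
  exact Quotient.sound (indist_of_sim hsub (hf _) (hf _) h1.all)

/-! ### Classes -/

theorem cls_eq_iff {A : Set Game} (hA : IsClosedSet A) (hsub : A ⊆ RepSet r)
    (hfull : ∀ g : Pos r, ∃ G ∈ A, Rep G g) (G H : A) {g h : Pos r} (hG : Rep G.1 g)
    (hH : Rep H.1 h) : cls hA G = cls hA H ↔ ∀ x : Pos r, (PP (g + x) ↔ PP (h + x)) := by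
  constructor
  · intro he x
    have hI : Indist A G.1 H.1 := Quotient.exact he
    obtain ⟨X, hXA, hX⟩ := hfull x
    have := hI X hXA
    rw [rep_nextWins _ _ (rep_add _ X g x hG hX), rep_nextWins _ _ (rep_add _ X h x hH hX)] at this
    exact not_iff_not.1 this
  · intro h
    exact Quotient.sound (indist_of_sim hsub hG hH h)

theorem nsmul_cls {A : Set Game} (hA : IsClosedSet A) (G : A) {g : Pos r} (hG : Rep G.1 g)
    (m : ℕ) : ∃ G' : A, Rep G'.1 (m • g) ∧ m • cls hA G = cls hA G' := by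
  induction m with
  | zero => exact ⟨⟨zero, hA.zero_mem⟩, by rw [zero_nsmul]; exact rep_zero, by rw [zero_nsmul]; rfl⟩
  | succ m ih =>
    obtain ⟨G', hG', h⟩ := ih
    refine ⟨⟨Game.add G' G, hA.add_mem _ G'.2 _ G.2⟩, ?_, ?_⟩
    · rw [succ_nsmul]
      exact rep_add G'.1 G.1 _ _ hG' hG
    · rw [succ_nsmul, h]
      rfl

theorem key {A : Set Game} (hA : IsClosedSet A) (hsub : A ⊆ RepSet r)
    (hfull : ∀ g : Pos r, ∃ G ∈ A, Rep G g) (G : A) {g : Pos r} (hG : Rep G.1 g) (a b : ℕ) :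
    a • cls hA G = b • cls hA G ↔ ∀ x : Pos r, (PP (a • g + x) ↔ PP (b • g + x)) := by
  obtain ⟨G1, hG1, e1⟩ := nsmul_cls hA G hG a
  obtain ⟨G2, hG2, e2⟩ := nsmul_cls hA G hG b
  rw [e1, e2, cls_eq_iff hA hsub hfull G1 G2 hG1 hG2]

/-- the period divides every period length -/
theorem period_dvd {M : Type} [AddCommMonoid M] {x : M} {p N m0 : ℕ} (h : HasPeriod x p)
    (hN : (m0 + N) • x = m0 • x) : p ∣ N := by
  obtain ⟨hp, m, hm, hmp, hleast⟩ := h
  have hA : ∀ k c : ℕ, (m + m0 + c + k * p) • x = (m + m0 + c) • x := by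
    intro k c
    induction k with
    | zero => simp
    | succ k ih =>
      rw [show m + m0 + c + (k + 1) * p = (m + p) + (m0 + c + k * p) by ring, add_nsmul, hmp,
        ← add_nsmul, show m + (m0 + c + k * p) = m + m0 + c + k * p by ring, ih]
  have hB : (m + m0 + N) • x = (m + m0) • x := by
    rw [show m + m0 + N = m + (m0 + N) by ring, add_nsmul, hN, ← add_nsmul]
  have hN' : N = N % p + N / p * p := by
    rw [mul_comm]; exact (Nat.mod_add_div N p).symm
  have hC : (m + m0 + N % p) • x = (m + m0) • x := by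
    rw [← hA (N / p) (N % p), ← hB]
    congr 1
    omega
  rcases Nat.eq_zero_or_pos (N % p) with h0 | h0
  · exact Nat.dvd_of_mod_eq_zero h0
  · have := (hleast (m + m0) (N % p) (by omega) h0 hC).2
    have := Nat.mod_lt N (show 0 < p by omega)
    omega

/-- **The periods of the elements of the misère quotient of one game.** -/
theorem periods (N : ℕ) (hN : 2 ≤ N) : ∃ g : Game,
    Finite (MisereQuotient (cl g) (cl_closed g)) ∧
      (∀ (x : MisereQuotient (cl g) (cl_closed g)) (p : ℕ), HasPeriod x p → p ∣ 4 * N) ∧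
      ∀ p : ℕ, p ∣ 4 * N → ∃ x : MisereQuotient (cl g) (cl_closed g),
        HasPeriod x p ∧ (1 + p) • x = x := by
  obtain ⟨r, rfl⟩ : ∃ r, N = r + 2 := ⟨N - 2, by omega⟩
  obtain ⟨g, hg⟩ := exists_rep (g0 r)
  have hA := cl_closed g
  have hsub : cl g ⊆ RepSet r := fun G hG => hG _ (repSet_closed r) ⟨_, hg⟩
  have hfull := full hA ⟨g, self_mem_cl g, hg⟩
  refine ⟨g, finite_quotient _ hsub, ?_, ?_⟩
  · rintro ⟨G⟩ p hp
    obtain ⟨k, hk⟩ := hsub G.2
    have h1 : (3 + (4 * r + 8)) • cls hA G = 3 • cls hA G :=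
      (key hA hsub hfull G hk _ _).2 (sim_nsmul k).all
    have h2 := period_dvd (x := cls hA G) hp h1
    rwa [show 4 * (r + 2) = 4 * r + 8 by ring]
  · rintro p ⟨c, hc⟩
    have hc' : 4 * r + 8 = p * c := by rw [← hc]; ring
    have hc0 : 0 < c := by
      rcases Nat.eq_zero_or_pos c with h | h
      · subst h; omega
      · exact h
    have hp0 : 1 ≤ p := by
      rcases Nat.eq_zero_or_pos p with h | h
      · subst h; omega
      · exact h
    obtain ⟨D, hD, hDr⟩ := hfull ((c, 0, 0, 0) : Pos r)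
    have hkey : ∀ m q : ℕ, (m + q) • cls hA ⟨D, hD⟩ = m • cls hA ⟨D, hD⟩ ↔ p ∣ q := by
      intro m q
      rw [key hA hsub hfull ⟨D, hD⟩ hDr]
      have e : ∀ k : ℕ, k • ((c, 0, 0, 0) : Pos r) = (k * c, 0, 0, 0) := by
        intro k; simp
      rw [e, e, show (m + q) * c = m * c + q * c by ring, d_iff, hc']
      exact Nat.mul_dvd_mul_iff_right hc0
    have h1 : (1 + p) • cls hA ⟨D, hD⟩ = 1 • cls hA ⟨D, hD⟩ := (hkey 1 p).2 (dvd_refl _)
    refine ⟨cls hA ⟨D, hD⟩, ⟨hp0, 1, le_refl _, h1, fun m' p' hm' hp' h => ⟨hm', ?_⟩⟩, ?_⟩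
    · exact Nat.le_of_dvd (by omega) ((hkey m' p').1 h)
    · rw [h1, one_nsmul]

end Pool.Agent.Y906.MQ
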