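import Pool.Agent.Results.MP_bc0e65_co.EveryPeriod

/-!
# Finite misère quotients with prescribed periods

Analysis of the positions of `Pool.Agent.MisPer` (written by the author of the starting file): the
outcomes only depend on finitely many data, the class of `d` has period exactly `4 r + 8`, and all
positions are sums of positions of one game.
-/

set_option autoImplicit false

namespace Pool.Agent.Y906.MQ

open Pool.Agent.MisPer
open Pool.Agent.Results.MP_bc0e65_co.EveryPeriod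
open Pool.Agent.Results.MP_bc0e65_co.EveryPeriod.Game

/-- The closure of the set of positions of the game `g`: the smallest set of games which contains
`g` and the empty game and is closed under sums and under taking options. -/
def cl (g : Game) : Set Game := {G | ∀ A : Set Game, IsClosedSet A → g ∈ A → G ∈ A}

theorem cl_closed (g : Game) : IsClosedSet (cl g) where
  zero_mem := fun _ hA _ => hA.zero_mem
  opts_mem := fun G hG G' hG' A hA hg => hA.opts_mem G (hG A hA hg) G' hG'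
  add_mem := fun G hG H hH A hA hg => hA.add_mem G (hG A hA hg) H (hH A hA hg)

theorem self_mem_cl (g : Game) : g ∈ cl g := fun _ _ hg => hg

variable {r : ℕ}

/-! ### The relation on positions -/

/-- two positions with the same data -/
def Sim (g g' : Pos r) : Prop :=
  g.1 % (4 * r + 8) = g'.1 % (4 * r + 8) ∧
  (g.2.1 = g'.2.1 ∨ (2 ≤ g.2.1 ∧ 2 ≤ g'.2.1 ∧ g.2.1 % 2 = g'.2.1 % 2)) ∧
  g.2.2.1 % 2 = g'.2.2.1 % 2 ∧
  gv g.2.2.2 = gv g'.2.2.2 ∧
  (g.2.2.2 = g'.2.2.2 ∨ (3 ≤ Multiset.card g.2.2.2 ∧ 3 ≤ Multiset.card g'.2.2.2))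

theorem Sim.add {g g' : Pos r} (h : Sim g g') (x : Pos r) : Sim (g + x) (g' + x) := by
  obtain ⟨n, i, l, Y⟩ := g
  obtain ⟨n', i', l', Y'⟩ := g'
  obtain ⟨a, b, c, Z⟩ := x
  obtain ⟨h1, h2, h3, h4, h5⟩ := h
  simp only at h1 h2 h3 h4 h5
  refine ⟨?_, ?_, ?_, ?_, ?_⟩
  · show (n + a) % (4 * r + 8) = (n' + a) % (4 * r + 8)
    exact Nat.ModEq.add_right a h1
  · show (i + b = i' + b ∨ (2 ≤ i + b ∧ 2 ≤ i' + b ∧ (i + b) % 2 = (i' + b) % 2))
    omega
  · show (l + c) % 2 = (l' + c) % 2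
    omega
  · show gv (Y + Z) = gv (Y' + Z)
    rw [gv_add, gv_add, h4]
  · show (Y + Z = Y' + Z ∨ (3 ≤ Multiset.card (Y + Z) ∧ 3 ≤ Multiset.card (Y' + Z)))
    rw [Multiset.card_add, Multiset.card_add]
    rcases h5 with rfl | h5
    · exact Or.inl rfl
    · right; omega

theorem not_Th {Y : Multiset (Atom r)} (h : 3 ≤ Multiset.card Y) (k : ℕ) : ¬ Th k Y := by
  rintro (⟨-, rfl⟩ | ⟨j, -, rfl⟩) <;> simp at h

theorem not_AN {Y : Multiset (Atom r)} (h : 3 ≤ Multiset.card Y) (l : ℕ) : ¬ AN l Y := by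
  rintro ⟨-, rfl | rfl | ⟨k, rfl⟩ | ⟨k, rfl⟩⟩ <;> simp at h

theorem not_AP {Y : Multiset (Atom r)} (h : 3 ≤ Multiset.card Y) (l : ℕ) : ¬ AP l Y := by
  rintro (⟨-, rfl | rfl⟩ | ⟨-, k, rfl⟩) <;> simp at h

theorem PP0_sim {l l' : ℕ} {Y Y' : Multiset (Atom r)} (hl : l % 2 = l' % 2) (hg : gv Y = gv Y')
    (hY : Y = Y' ∨ (3 ≤ Multiset.card Y ∧ 3 ≤ Multiset.card Y')) : PP0 l Y ↔ PP0 l' Y' := by
  rcases hY with rfl | ⟨h, h'⟩
  · exact PP0_par hl Y
  · unfold PP0 G
    rw [hl, hg]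
    simp only [not_AN h l, not_AN h' l', not_AP h l, not_AP h' l', not_false_eq_true, and_true,
      or_false]

theorem Sim.pp {g g' : Pos r} (h : Sim g g') : PP g ↔ PP g' := by
  obtain ⟨n, i, l, Y⟩ := g
  obtain ⟨n', i', l', Y'⟩ := g'
  obtain ⟨h1, h2, h3, h4, h5⟩ := h
  simp only at h1 h2 h3 h4 h5
  have hn2 : n % 2 = n' % 2 := by
    have h3 : n ≡ n' [MOD (4 * r + 8)] := h1
    exact h3.of_dvd ⟨2 * r + 4, by ring⟩
  show PPc n i l Y ↔ PPc n' i' l' Y'
  match i, i', h2 with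
  | 0, 0, _ =>
    show PP0 (l + n) Y ↔ PP0 (l' + n') Y'
    exact PP0_sim (by omega) h4 h5
  | 1, 1, _ =>
    show (∃ k, Th k Y ∧ chi r (k + (4 * r + 7) * (n + l % 2))) ↔
      (∃ k, Th k Y' ∧ chi r (k + (4 * r + 7) * (n' + l' % 2)))
    rcases h5 with rfl | ⟨h5, h5'⟩
    · have h6 : ∀ k, (k + (4 * r + 7) * (n + l % 2)) % (4 * r + 8) =
          (k + (4 * r + 7) * (n' + l' % 2)) % (4 * r + 8) := by
        intro k
        have h7 : n ≡ n' [MOD (4 * r + 8)] := h1
        rw [h3]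
        exact ((h7.add_right _).mul_left _).add_left _
      constructor
      · rintro ⟨k, hk, hc⟩
        exact ⟨k, hk, (chi_congr (h6 k)).1 hc⟩
      · rintro ⟨k, hk, hc⟩
        exact ⟨k, hk, (chi_congr (h6 k)).2 hc⟩
    · constructor
      · rintro ⟨k, hk, -⟩
        exact absurd hk (not_Th h5 k)
      · rintro ⟨k, hk, -⟩
        exact absurd hk (not_Th h5' k)
  | i + 2, j + 2, h2 =>
    show (i % 2 = 0 ∧ G l Y = n % 2) ↔ (j % 2 = 0 ∧ G l' Y' = n' % 2)
    have e : i % 2 = j % 2 := by omega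
    unfold G
    rw [e, h3, h4, hn2]
  | 0, 1, h2 => omega
  | 1, 0, h2 => omega
  | 0, j + 2, h2 => omega
  | 1, j + 2, h2 => omega
  | i + 2, 0, h2 => omega
  | i + 2, 1, h2 => omega

theorem Sim.all {g g' : Pos r} (h : Sim g g') (x : Pos r) : PP (g + x) ↔ PP (g' + x) :=
  (h.add x).pp

theorem gv_nsmul (k : ℕ) (Y : Multiset (Atom r)) :
    gv (k • Y) = if k % 2 = 0 then 0 else gv Y := by
  induction k with
  | zero => simp
  | succ k ih =>
    rw [succ_nsmul, gv_add, ih]
    rcases Nat.mod_two_eq_zero_or_one k with h | h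
    · rw [if_pos h, if_neg (by omega), Nat.zero_xor]
    · rw [if_neg (by omega), if_pos (by omega), Nat.xor_self]

/-- multiples repeat with period `4 r + 8` from the third on -/
theorem sim_nsmul (g : Pos r) : Sim ((3 + (4 * r + 8)) • g) (3 • g) := by
  obtain ⟨n, i, l, Y⟩ := g
  refine ⟨?_, ?_, ?_, ?_, ?_⟩
  · show ((3 + (4 * r + 8)) * n) % (4 * r + 8) = (3 * n) % (4 * r + 8)
    rw [show (3 + (4 * r + 8)) * n = 3 * n + (4 * r + 8) * n by ring, Nat.add_mul_mod_self_left]
  · show ((3 + (4 * r + 8)) * i = 3 * i ∨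
      (2 ≤ (3 + (4 * r + 8)) * i ∧ 2 ≤ 3 * i ∧ ((3 + (4 * r + 8)) * i) % 2 = (3 * i) % 2))
    rcases Nat.eq_zero_or_pos i with rfl | hi
    · left; simp
    · right
      refine ⟨by nlinarith, by omega, ?_⟩
      rw [show (3 + (4 * r + 8)) * i = 3 * i + 2 * ((2 * r + 4) * i) by ring,
        Nat.add_mul_mod_self_left]
  · show ((3 + (4 * r + 8)) * l) % 2 = (3 * l) % 2
    rw [show (3 + (4 * r + 8)) * l = 3 * l + 2 * ((2 * r + 4) * l) by ring,
      Nat.add_mul_mod_self_left]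
  · show gv ((3 + (4 * r + 8)) • Y) = gv (3 • Y)
    rw [gv_nsmul, gv_nsmul]
    have e : (3 + (4 * r + 8)) % 2 = 3 % 2 := by omega
    rw [e]
  · show ((3 + (4 * r + 8)) • Y = 3 • Y ∨
      (3 ≤ Multiset.card ((3 + (4 * r + 8)) • Y) ∧ 3 ≤ Multiset.card (3 • Y)))
    rw [Multiset.card_nsmul, Multiset.card_nsmul]
    rcases Nat.eq_zero_or_pos (Multiset.card Y) with h | h
    · left
      rw [Multiset.card_eq_zero.1 h]
      simp
    · right
      constructor
      · nlinarith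
      · omega

/-! ### The period of `d` -/

theorem chi_period' {s : ℕ} (hs : s < 4 * r + 8) (h : ∀ t, chi r t → chi r (t + s)) : s = 0 := by
  by_contra hs0
  have h0 : chi r 0 := by left; simp
  have h1 := h 0 h0
  rw [Nat.zero_add] at h1
  unfold chi at h1
  rw [Nat.mod_eq_of_lt hs] at h1
  rcases h1 with ⟨h1, h2⟩ | ⟨h1, h2, h3⟩
  · have h4 : chi r (2 * r + 4 - s) := by
      unfold chi
      rw [Nat.mod_eq_of_lt (show 2 * r + 4 - s < 4 * r + 8 by omega)]
      left; omega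
    have h5 := h _ h4
    rw [show 2 * r + 4 - s + s = 2 * r + 4 by omega] at h5
    unfold chi at h5
    rw [Nat.mod_eq_of_lt (show 2 * r + 4 < 4 * r + 8 by omega)] at h5
    omega
  · have h4 : chi r (4 * r + 7 - s) := by
      unfold chi
      rw [Nat.mod_eq_of_lt (show 4 * r + 7 - s < 4 * r + 8 by omega)]
      left; omega
    have h5 := h _ h4
    rw [show 4 * r + 7 - s + s = 4 * r + 7 by omega] at h5
    unfold chi at h5
    rw [Nat.mod_eq_of_lt (show 4 * r + 7 < 4 * r + 8 by omega)] at h5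
    omega

theorem d_iff (m q : ℕ) :
    (∀ x : Pos r, (PP ((m + q, 0, 0, 0) + x) ↔ PP ((m, 0, 0, 0) + x))) ↔ (4 * r + 8) ∣ q := by
  constructor
  · intro hall
    have key : ∀ n, (chi r ((4 * r + 7) * (m + q + n)) ↔ chi r ((4 * r + 7) * (m + n))) := by
      intro n
      have := hall ((n, 1, 0, 0) : Pos r)
      have e1 : (((m + q, 0, 0, 0) : Pos r) + (n, 1, 0, 0)) = (m + q + n, 1, 0, 0) := by
        simp
      have e2 : (((m, 0, 0, 0) : Pos r) + (n, 1, 0, 0)) = (m + n, 1, 0, 0) := by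
        simp
      rw [e1, e2, PP_row1, PP_row1] at this
      exact this
    have hshift : ∀ t, chi r t → chi r (t + q % (4 * r + 8)) := by
      intro t ht
      set n := (4 * r + 7) * (t + (m + q)) with hn
      have k1 : chi r ((4 * r + 7) * (m + q + n)) := by
        refine (chi_congr ?_).1 ht
        have : (4 * r + 7) * (m + q + n) =
            t + (4 * r + 8) * ((m + q) * (4 * r + 7) + t * (4 * r + 6)) := by
          rw [hn]; ring
        rw [this, Nat.add_mul_mod_self_left]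
      have k2 := (key n).1 k1
      refine (chi_congr ?_).1 k2
      have e : (4 * r + 7) * (m + n) + (4 * r + 8) * q =
          (t + q % (4 * r + 8)) + (4 * r + 8) * (m * (4 * r + 7) + q * (4 * r + 7) +
            t * (4 * r + 6) + q / (4 * r + 8)) := by
        have hq : q = (4 * r + 8) * (q / (4 * r + 8)) + q % (4 * r + 8) :=
          (Nat.div_add_mod q (4 * r + 8)).symm
        set a := q / (4 * r + 8)
        set b := q % (4 * r + 8)
        rw [hn, hq]
        ring
      have e1 := congrArg (fun z => z % (4 * r + 8)) e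
      simp only [Nat.add_mul_mod_self_left] at e1
      exact e1
    have hlt : q % (4 * r + 8) < 4 * r + 8 := Nat.mod_lt _ (by omega)
    exact Nat.dvd_of_mod_eq_zero (chi_period' hlt hshift)
  · rintro ⟨c, rfl⟩ x
    apply Sim.all
    refine ⟨?_, Or.inl rfl, rfl, rfl, Or.inl rfl⟩
    show (m + (4 * r + 8) * c) % (4 * r + 8) = m % (4 * r + 8)
    rw [Nat.add_mul_mod_self_left]

end Pool.Agent.Y906.MQ
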